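import Pool.Agent.Q33.SB.Stm

/-! # Project SB (helper33), job NMI: norms of integers of cyclotomic fields -/

set_option autoImplicit false

namespace Pool.Agent.Q241.SB

open NumberField Finset

/-- the norm is positive -/
lemma norm_pos {N : ℕ} (hN : 3 ≤ N) {L : Type} [Field L] [NumberField L] {ζ : L} (hζ : IsPrimitiveRoot ζ N)
    {x : L} (hx : x ≠ 0) : 0 < Algebra.norm ℚ x := by
  classical
  have h1 := Algebra.norm_eq_prod_embeddings ℚ ℂ x
  let c : (L →ₐ[ℚ] ℂ) → (L →ₐ[ℚ] ℂ) := fun σ => ((Complex.conjAe.restrictScalars ℚ : ℂ ≃ₐ[ℚ] ℂ) : ℂ →ₐ[ℚ] ℂ).comp σ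
  have hc : ∀ (σ : L →ₐ[ℚ] ℂ) (y : L), c σ y = starRingEnd ℂ (σ y) := fun σ y => rfl
  have h2 : ∏ σ : L →ₐ[ℚ] ℂ, (σ x / (‖σ x‖ : ℂ)) = 1 := by
    refine Finset.prod_involution (fun σ _ => c σ) ?_ ?_ ?_ ?_
    · intro σ _
      have h3 : σ x ≠ 0 := (map_ne_zero σ).2 hx
      have h4 : (‖σ x‖ : ℂ) ≠ 0 := by
        rw [Ne, Complex.ofReal_eq_zero, norm_eq_zero]
        exact h3
      rw [hc, Complex.norm_conj]
      field_simp
      rw [Complex.mul_conj, Complex.normSq_eq_norm_sq]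
      push_cast
      ring
    · intro σ _ _ h3
      have h4 : starRingEnd ℂ (σ ζ) = σ ζ := by
        rw [← hc, h3]
      obtain ⟨r, hr⟩ := Complex.conj_eq_iff_real.1 h4
      have h5 : (σ ζ) ^ N = 1 := by rw [← map_pow, hζ.pow_eq_one, map_one]
      rw [hr] at h5
      have h6 : r ^ N = 1 := by exact_mod_cast h5
      have h7 : r ^ 2 = 1 := by
        have h8 : |r| = 1 := (pow_eq_one_iff_of_nonneg (n := N) (abs_nonneg r) (by omega)).1 (by rw [← abs_pow, h6, abs_one])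
        rw [← sq_abs, h8, one_pow]
      have h9 : ζ ^ 2 = 1 := by
        apply σ.toRingHom.injective
        change σ (ζ ^ 2) = σ 1
        rw [map_pow, map_one, hr]
        exact_mod_cast h7
      have h10 := hζ.dvd_of_pow_eq_one 2 h9
      have := Nat.le_of_dvd (by norm_num) h10
      omega
    · intro σ _
      exact mem_univ _
    · intro σ _
      refine AlgHom.ext fun y => ?_
      rw [hc, hc, Complex.conj_conj]
  rw [Finset.prod_div_distrib, ← h1] at h2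
  have h3 : ∏ σ : L →ₐ[ℚ] ℂ, (‖σ x‖ : ℂ) = ((∏ σ : L →ₐ[ℚ] ℂ, ‖σ x‖ : ℝ) : ℂ) := by push_cast; rfl
  have h4 : 0 < ∏ σ : L →ₐ[ℚ] ℂ, ‖σ x‖ :=
    Finset.prod_pos fun σ _ => norm_pos_iff.2 ((map_ne_zero σ).2 hx)
  have h5 : algebraMap ℚ ℂ (Algebra.norm ℚ x) = ((∏ σ : L →ₐ[ℚ] ℂ, ‖σ x‖ : ℝ) : ℂ) := by
    rw [h3] at h2
    rwa [div_eq_one_iff_eq] at h2
    rw [Ne, Complex.ofReal_eq_zero]
    exact h4.ne'
  have h6 : ((Algebra.norm ℚ x : ℚ) : ℝ) = ∏ σ : L →ₐ[ℚ] ℂ, ‖σ x‖ := by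
    have h7 : ((((Algebra.norm ℚ x : ℚ) : ℝ)) : ℂ) = ((∏ σ : L →ₐ[ℚ] ℂ, ‖σ x‖ : ℝ) : ℂ) := by
      rw [← h5]
      simp
    exact_mod_cast h7
  have h7 : (0 : ℝ) < ((Algebra.norm ℚ x : ℚ) : ℝ) := by rw [h6]; exact h4
  exact_mod_cast h7

/-- the norm of an ideal -/
lemma absNorm_aux {p m : ℕ} (hp : p.Prime) (hm : 1 ≤ m) {L : Type} [Field L] [NumberField L] {ζ : 𝓞 L}
    (hζ : IsPrimitiveRoot ζ (p ^ m)) (I : Ideal (𝓞 L)) : I ≠ ⊥ →
    ∃ s a : ℕ, Ideal.absNorm I = p ^ s * a ∧ a ≡ 1 [MOD p ^ m] := by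
  have : NeZero (p ^ m) := ⟨pow_ne_zero _ hp.ne_zero⟩
  induction I using UniqueFactorizationMonoid.induction_on_prime with
  | h₁ => intro h; exact absurd rfl h
  | h₂ I hI =>
    intro _
    rw [Ideal.isUnit_iff.1 hI, Ideal.absNorm_top]
    exact ⟨0, 1, by simp, rfl⟩
  | h₃ I P hI hP ih =>
    intro _
    obtain ⟨s, a, h1, h2⟩ := ih hI
    have hPp : P.IsPrime := Ideal.isPrime_of_prime hP
    have hPm : P.IsMaximal := hPp.isMaximal hP.ne_zero
    obtain ⟨q, f, hf0, hqP, hq, hf⟩ := Ideal.exists_prime_and_absNorm_eq_pow P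
    by_cases hqp : q = p
    · subst hqp
      refine ⟨f + s, a, ?_, h2⟩
      rw [map_mul, h1, hf, pow_add]
      ring
    · have h3 : (Ideal.absNorm P).Coprime (p ^ m) := by
        rw [hf]
        exact ((Nat.coprime_primes hq hp).2 hqp).pow f m
      have h4 : Ideal.absNorm P ≠ 1 := by
        rw [hf]
        intro h
        have := (Nat.pow_eq_one.1 h)
        rcases this with h | h
        · exact hq.ne_one h
        · omega
      have h5 := hζ.idealQuotient_mk h4 h3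
      have h6 : p ^ m ∣ Ideal.absNorm P - 1 := by
        let _ := Ideal.Quotient.field P
        have h7 := orderOf_dvd_natCard (h5.isUnit (NeZero.ne _)).unit
        rw [Nat.card_units, ← orderOf_units, IsUnit.unit_spec, ← h5.eq_orderOf] at h7
        exact h7
      have h8 : Ideal.absNorm P ≡ 1 [MOD p ^ m] := by
        refine ((Nat.modEq_iff_dvd' ?_).2 h6).symm
        rw [hf]
        exact Nat.one_le_pow _ _ hq.pos
      refine ⟨s, Ideal.absNorm P * a, ?_, ?_⟩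
      · rw [map_mul, h1]
        ring
      · simpa using h8.mul h2

theorem t_NMI : Pool.Agent.Q33.SB.S_NMI := by
  intro p m _ L _ _ _ hp2 hm β a s hn ha
  have hp : p.Prime := Fact.out
  have hp3 : 3 ≤ p := by
    have := hp.two_le
    omega
  have hN : 3 ≤ p ^ m := hp3.trans (Nat.le_self_pow (by omega) p)
  have : NeZero (p ^ m) := ⟨pow_ne_zero _ hp.ne_zero⟩
  have hζ := IsCyclotomicExtension.zeta_spec (p ^ m) ℚ L
  have hβ : β ≠ 0 := by
    rintro rfl
    rw [Algebra.norm_zero] at hn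
    rcases mul_eq_zero.1 hn.symm with h | h
    · exact pow_ne_zero s (by exact_mod_cast hp.ne_zero : (p : ℤ) ≠ 0) h
    · exact ha (by rw [h]; exact dvd_zero _)
  have hpos : 0 < Algebra.norm ℤ β := by
    have h1 := norm_pos hN hζ (x := (β : L)) (by exact_mod_cast hβ)
    rw [← Algebra.coe_norm_int] at h1
    exact_mod_cast h1
  obtain ⟨s', a', h1, h2⟩ := absNorm_aux hp hm hζ.toInteger_isPrimitiveRoot (Ideal.span {β})
    (by rwa [Ne, Ideal.span_singleton_eq_bot])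
  rw [Ideal.absNorm_span_singleton] at h1
  have h3 : ((Algebra.norm ℤ β).natAbs : ℤ) = Algebra.norm ℤ β := Int.natAbs_of_nonneg hpos.le
  have h4 : (p : ℤ) ^ s * a = (p : ℤ) ^ s' * a' := by
    rw [← hn, ← h3, h1]
    push_cast
    rfl
  have hpm1 : p ∣ p ^ m := dvd_pow_self p (by omega)
  have ha' : ¬ (p : ℤ) ∣ (a' : ℤ) := by
    intro h
    have h5 : p ∣ a' := by exact_mod_cast h
    have h6 : a' ≡ 1 [MOD p] := h2.of_dvd hpm1
    have h7 : p ∣ 1 := (h6.dvd_iff dvd_rfl).1 h5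
    exact hp.one_lt.ne' (Nat.dvd_one.1 h7)
  have hp0 : (p : ℤ) ≠ 0 := by exact_mod_cast hp.ne_zero
  have haa : a = a' := by
    rcases lt_trichotomy s s' with h | h | h
    · exfalso
      obtain ⟨k, rfl⟩ := Nat.exists_eq_add_of_lt h
      have h5 : (p : ℤ) ^ s * a = (p : ℤ) ^ s * ((p : ℤ) ^ (k + 1) * a') := by
        rw [h4]
        ring
      have h6 := mul_left_cancel₀ (pow_ne_zero s hp0) h5
      apply ha
      rw [h6, pow_succ]
      exact Dvd.dvd.mul_right (dvd_mul_left _ _) _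
    · rw [h] at h4
      exact mul_left_cancel₀ (pow_ne_zero s' hp0) h4
    · exfalso
      obtain ⟨k, rfl⟩ := Nat.exists_eq_add_of_lt h
      have h5 : (p : ℤ) ^ s' * a' = (p : ℤ) ^ s' * ((p : ℤ) ^ (k + 1) * a) := by
        rw [← h4]
        ring
      have h6 := mul_left_cancel₀ (pow_ne_zero s' hp0) h5
      apply ha'
      rw [h6, pow_succ]
      exact Dvd.dvd.mul_right (dvd_mul_left _ _) _
  rw [haa]
  have h5 := (Int.natCast_modEq_iff.2 h2).symm.dvd
  push_cast at h5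
  exact h5

end Pool.Agent.Q241.SB
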